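import Pool.Agent.H2.OI2

open Pool.Agent.H2.OI CategoryTheory

namespace Pool.Agent.Results.MP_a29b63_ag.NotLinear

theorem result (K : Type) [Field K] (fi : Bool) (h2 : fi = true → (2 : K) = 0) :
    ∃ M : Mod K fi, M.FG ∧
      (∀ n : ℕ, Odd n →
        projectiveDimension (ModuleCat.of (MvPolynomial (Fin n) K) (M.obj n)) = n) ∧
      (∀ n : ℕ, Even n → 2 ≤ n →
        projectiveDimension (ModuleCat.of (MvPolynomial (Fin n) K) (M.obj n)) = (n - 1 : ℕ)) ∧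
      ¬ ∃ (A B : ℤ) (N : ℕ), ∀ n ≥ N, ∃ d : ℕ,
        projectiveDimension (ModuleCat.of (MvPolynomial (Fin n) K) (M.obj n)) = d ∧
          (d : ℤ) = A * n + B := by
  have he : ∀ n : ℕ, Even n → 2 ≤ n → projectiveDimension
      (ModuleCat.of (MvPolynomial (Fin n) K) (Ex K n)) = (n - 1 : ℕ) := by
    intro n hn h
    obtain ⟨k, rfl⟩ : ∃ k, n = k + 1 := ⟨n - 1, by omega⟩
    exact pdim_even k hn
  refine ⟨exMod K fi h2, exFG fi h2, fun n hn => pdim_odd hn, he, ?_⟩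
  rintro ⟨A, B, N, h⟩
  obtain ⟨d1, h1, e1⟩ := h (2 * N + 1) (by omega)
  obtain ⟨d2, h2, e2⟩ := h (2 * N + 2) (by omega)
  obtain ⟨d3, h3, e3⟩ := h (2 * N + 3) (by omega)
  have f1 : d1 = 2 * N + 1 := by
    exact_mod_cast h1.symm.trans (pdim_odd (K := K) ⟨N, rfl⟩)
  have f2 : d2 = 2 * N + 2 - 1 := by
    exact_mod_cast h2.symm.trans (he _ ⟨N + 1, by ring⟩ (by omega))
  have f3 : d3 = 2 * N + 3 := by
    exact_mod_cast h3.symm.trans (pdim_odd (K := K) ⟨N + 1, by ring⟩)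
  have f2' : d2 = 2 * N + 1 := by omega
  subst f1 f2' f3
  push_cast at e1 e2 e3
  have : (2 : ℤ) = 0 := by linear_combination e1 - 2 * e2 + e3
  omega

end Pool.Agent.Results.MP_a29b63_ag.NotLinear
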